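import Mathlib
import Pool.Agent.H95w.Final

/-! # The normalised width of the typical Poisson-Voronoi cell converges in probability

There is a real constant `c` such that, for every choice of intensities, the normalised width of the
typical Poisson-Voronoi cell in `ℝ^d` converges to `c` in probability as `d → ∞`. (The proof gives
`c` as the infimum of an explicit functional over finite point configurations all of whose Gram
determinants are at least `1`.) -/

namespace Pool.Agent.Results.MP_24911a_pr.WidthLimit

open Pool.Agent.H95w MeasureTheory Filter Topology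

theorem result : ∃ c : ℝ, ∀ l : ℕ → ℝ, (∀ d, 0 < d → 0 < l d) →
    ∀ (Ω : ℕ → Type) [∀ d, MeasurableSpace (Ω d)] (P : ∀ d, Measure (Ω d))
      [∀ d, IsProbabilityMeasure (P d)]
      (Z : ∀ d, Ω d → Set (EuclideanSpace ℝ (Fin d))),
      (∀ d, 0 < d → IsPoisson (P d) (ENNReal.ofReal (l d) • volume) (Z d)) →
      ∀ ε : ℝ, 0 < ε →
        Tendsto (fun d => P d {ω | ε < |normWidth d (l d) (Z d ω) - c|}) atTop (𝓝 0) := by
  obtain ⟨c, hc⟩ := main
  exact ⟨c, fun l hl Ω _ P _ Z hZ ε hε => hc l hl Ω P Z hZ ε hε⟩

end Pool.Agent.Results.MP_24911a_pr.WidthLimit
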